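import Pool.Agent.Q158.DiagProdC

/-! Diagonal products of stochastic matrices of rank at most `k`: the sharp bound `M(n, k)` and
the case of equality. -/

namespace Pool.Agent.Results.MP_bd2037_co.DiagBound

open Q158.DiagProd

/-- For `1 ≤ k ≤ n`, a row- or column-stochastic `n × n` matrix `A` of rank at most `k` and a
permutation `σ`, the diagonal product of `A` along `σ` is at most `M(n, k)`, with equality if
and only if `A = Pᵀ J P π(σ)` for some permutation matrix `P`. -/
theorem result (n k : ℕ) (hk : 1 ≤ k) (hkn : k ≤ n) (σ : Equiv.Perm (Fin n))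
    (A : Matrix (Fin n) (Fin n) ℝ) (hA : RowStochastic A ∨ ColStochastic A)
    (hrank : A.rank ≤ k) :
    ∏ i, A i (σ i) ≤ M n k ∧
      (∏ i, A i (σ i) = M n k ↔ ∃ P : Equiv.Perm (Fin n),
        A = (perm P).transpose * J n k * perm P * perm σ) :=
  main_thm hk hkn σ hA hrank

end Pool.Agent.Results.MP_bd2037_co.DiagBound
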